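import Pool.Agent.H62.Gamma.Main

/-!
# A separable Frechet-Urysohn `C_p(X)` which is not hereditarily separable

Under the continuum hypothesis there is a Tychonoff space `X` such that `C_p(X)` is separable and
Frechet-Urysohn but not hereditarily separable. Since the continuum hypothesis is consistent with
ZFC, so is the existence of such a space.

Construction. The points of `X` are the finite subsets of `ℕ` and the members of a strictly
decreasing tower (modulo finite sets) of infinite subsets of `ℕ` of length `ω₁`. The finite sets
keep their neighbourhoods from the Cantor space, the members of the tower are isolated. The tower is
built, as in the Galvin-Miller construction, so that every countable cover of finite subsets by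
sets which are unions of a clopen set of the Cantor space and a finite set has a convergent
subsequence. Then every open cover of the finite subsets of `X` has one, so `C_p(X)` is
Frechet-Urysohn. The weaker separable metrizable topology gives separability, and the
characteristic functions of the isolated points are an uncountable discrete subspace.
-/

namespace Pool.Agent.Results.MP_dfc365_gt.ConsistentExample

open Pool.Agent.H62.Gamma

/-- If the continuum hypothesis holds, then there is a Tychonoff space `X` for which `C_p(X)` is
separable and Frechet-Urysohn, but not hereditarily separable. -/
theorem result (hCH : (Cardinal.aleph 1 : Cardinal.{0}) = Cardinal.continuum) :
    ∃ (X : Type) (_ : TopologicalSpace X), T35Space X ∧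
      TopologicalSpace.SeparableSpace (Cp X) ∧ FrechetUrysohnSpace (Cp X) ∧
      ¬ HereditarilySeparable (Cp X) :=
  main hCH

end Pool.Agent.Results.MP_dfc365_gt.ConsistentExample
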